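import Pool.Agent.H445.MJ.Uni

/-!
# MP_5e64e7_nt: the exact dimension of the set of ALL counterexamples to the modular Schanuel conjecture with derivatives and special points

For the special closure `U` of an arbitrary point `z = (z_1, …, z_n)` of `ℍ^n` one has
`dim ⟨U⟩ - dim U = 3 m₁ + m₂`, where `m₁` is the number of the `GL₂⁺(ℚ)`-orbits of the non-quadratic `z_i`
and `m₂` is the number of the orbits of the quadratic `z_i` with `j(z_i) ≠ 0` (the blocks of the problem
file). Let `F(n,m)` be the set of all `z` in `ℍ^n` for which the transcendence degree of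
`ℚ(z, j(z), j'(z), j''(z))` is at most `3 m₁ + m₂ - m`. The conjecture says that `F(n,m)` is empty for
`m ≥ 1`. There are no conditions on the points: several coordinates may be equivalent, and some of them
may be quadratic. We prove the following unconditional relation between the size of these sets
and the existence of counterexamples of larger defect.

* The Hausdorff dimension of `F(n,m)` in `ℂ^n` is exactly `2 d`, where `d` is the largest number for
  which `F(n - d, m + d)` is not empty (`0` if `F(n,m)` is empty).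
* `d ≤ (3 n - m - 1) / 4`, by Schneider's theorem.
* `F(n,m)` is countable if and only if `F(n - 1, m + 1)` is empty. In particular `F(n,m)` is
  countable for `3 n ≤ m + 4`.
* `F(n, m + d + 1)` is empty for all `n` if and only if for all `n` the Hausdorff dimension of `F(n,m)`
  is at most `2 d`. For `m = d = 0`: the conjecture holds if and only if for every `n` there are only
  countably many points of `ℍ^n` with `trdeg ≤ 3 m₁ + m₂ = dim ⟨U⟩ - dim U`. For `m = 1`: the conjecture holds
  up to the error `d + 1` if and only if the set `F(n,1)` of all counterexamples in `ℍ^n` has dimension at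
  most `2 d` for all `n`.

## The proof (in `Pool.Agent.H445.MJ`)

The main tool is a proof of the full theorem of Ax-Schanuel type for `j` (Pila-Tsimerman) in a
pointwise form, for derivations of `ℂ` and several points of the upper half-plane (`RankJ`, `ChainJ`):
if `D` runs through a space of derivations which respect the differential equations of `j` at the
points `τ_1, …, τ_s`, the points are pairwise inequivalent under `GL₂⁺(ℚ)` and no `τ_i` is killed by
all `D`, then the numbers `τ_i, j, j', j''` have rank at least `3 s + δ` over the constants, `δ` the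
dimension of the space of the vectors `(D τ_i)`. The case of two points with algebraically dependent
`j`'s is a local-global argument at the places of the function field over the cusp (`Loc`, `Glob`,
`Van`, `PairIA`). It gives the dimension formula for pairwise inequivalent non-quadratic points,
relative to an arbitrary finite set of numbers (`DimJ`). The set `F(n,m)` is a countable union of images of
such sets under maps given by matrices in `GL₂⁺(ℚ)` and by constant quadratic coordinates; the numbers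
at the quadratic points are the finite set (`Uni`).
-/

set_option autoImplicit false

open Set

noncomputable section

namespace Pool.Agent.Results.MP_5e64e7_nt.DimensionFormula

open Pool.Agent.H445.MJ (FU LevU BadU SgS Sg cntU oN oS orb dimU countableU lowerU LevU_bdd LevU_le trdeg_iff CMp
  GL2Q jq_eq deriv_eq deriv2_eq)

/-- the normalised Eisenstein series of weight `4` -/
def E4 (τ : ℂ) : ℂ :=
  1 + 240 * ∑' m : ℕ, ((ArithmeticFunction.sigma 3 (m + 1) : ℕ) : ℂ) *
    Complex.exp (2 * (Real.pi : ℂ) * Complex.I * τ) ^ (m + 1)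

/-- the normalised Eisenstein series of weight `6` -/
def E6 (τ : ℂ) : ℂ :=
  1 - 504 * ∑' m : ℕ, ((ArithmeticFunction.sigma 5 (m + 1) : ℕ) : ℂ) *
    Complex.exp (2 * (Real.pi : ℂ) * Complex.I * τ) ^ (m + 1)

/-- the modular invariant `j = q⁻¹ + 744 + 196884 q + ⋯` -/
def j (τ : ℂ) : ℂ := 1728 * E4 τ ^ 3 / (E4 τ ^ 3 - E6 τ ^ 2)

/-- `z` satisfies a nontrivial quadratic equation with integral coefficients. -/
def IsQuadratic (z : ℂ) : Prop :=
  ∃ a b c : ℤ, (a ≠ 0 ∨ b ≠ 0 ∨ c ≠ 0) ∧ (a : ℂ) * z ^ 2 + (b : ℂ) * z + (c : ℂ) = 0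

/-- The orbit of `z` under `GL₂⁺(ℚ)`: the points `w = (a z + b) / (c z + d)` of the upper half-plane. -/
def orbit (z : ℂ) : Set ℂ :=
  {w | 0 < w.im ∧ ∃ a b c d : ℚ, 0 < a * d - b * c ∧ w * ((c : ℂ) * z + (d : ℂ)) = (a : ℂ) * z + (b : ℂ)}

/-- the number of the orbits of the non-quadratic `z_i` -/
def m₁ {n : ℕ} (z : Fin n → ℂ) : ℕ := {O | ∃ i, ¬ IsQuadratic (z i) ∧ O = orbit (z i)}.ncard

/-- the number of the orbits of the quadratic `z_i` with `j(z_i) ≠ 0` -/
def m₂ {n : ℕ} (z : Fin n → ℂ) : ℕ := {O | ∃ i, IsQuadratic (z i) ∧ j (z i) ≠ 0 ∧ O = orbit (z i)}.ncard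

/-- The numbers `zᵢ, j(zᵢ), j'(zᵢ), j''(zᵢ)`. -/
def numbers {n : ℕ} (z : Fin n → ℂ) : Set ℂ :=
  {x | ∃ i, x = z i ∨ x = j (z i) ∨ x = deriv j (z i) ∨ x = deriv (deriv j) (z i)}

/-- All points `z` of `ℍ^n` with `trdeg ℚ(z, j(z), j'(z), j''(z)) + m ≤ 3 m₁ + m₂`. -/
def Fails (n m : ℕ) : Set (Fin n → ℂ) :=
  {z | (∀ i, 0 < (z i).im) ∧
    Algebra.trdeg ℚ (IntermediateField.adjoin ℚ (numbers z)) + m ≤ ((3 * m₁ z + m₂ z : ℕ) : Cardinal)}

/-- The largest `d ≤ n` such that `F(n - d, m + d)` is not empty (zero if there is none). -/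
def level (n m : ℕ) : ℕ := sSup {d | d ≤ n ∧ (Fails (n - d) (m + d)).Nonempty}

theorem j_eq {τ : ℂ} (h : 0 < τ.im) : j τ = Pool.Agent.Y776.jf τ := by
  rw [← jq_eq h]
  rfl

theorem numbers_eq {n : ℕ} {z : Fin n → ℂ} (hz : ∀ i, 0 < (z i).im) : numbers z = SgS true (range z) := by
  ext x
  simp only [numbers, SgS, Sg, mem_ofPred_eq, mem_iUnion, mem_range, exists_prop, exists_exists_eq_and,
    mem_insert_iff, mem_singleton_iff]
  exact exists_congr fun i => by
    rw [j_eq (hz i), deriv_eq (fun z hz => j_eq hz) (hz i), deriv2_eq (fun z hz => j_eq hz) (hz i)]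

theorem m₁_eq {n : ℕ} (z : Fin n → ℂ) : m₁ z = (oN (range z)).ncard := by
  unfold m₁ oN
  congr 1
  ext O
  constructor
  · rintro ⟨i, h, rfl⟩
    exact ⟨z i, ⟨⟨i, rfl⟩, h⟩, rfl⟩
  · rintro ⟨_, ⟨⟨i, rfl⟩, h⟩, rfl⟩
    exact ⟨i, h, rfl⟩

theorem m₂_eq {n : ℕ} {z : Fin n → ℂ} (hz : ∀ i, 0 < (z i).im) : m₂ z = (oS (range z)).ncard := by
  unfold m₂ oS
  congr 1
  ext O
  constructor
  · rintro ⟨i, h, h', rfl⟩
    exact ⟨z i, ⟨⟨i, rfl⟩, h, by rwa [← j_eq (hz i)]⟩, rfl⟩
  · rintro ⟨_, ⟨⟨i, rfl⟩, h, h'⟩, rfl⟩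
    exact ⟨i, h, by rwa [j_eq (hz i)], rfl⟩

theorem Fails_eq (n m : ℕ) : Fails n m = FU n m := by
  ext z
  constructor
  · rintro ⟨h1, h2⟩
    have h3 := (trdeg_iff m (3 * m₁ z + m₂ z)).1 h2
    rw [numbers_eq h1, m₁_eq, m₂_eq h1] at h3
    refine ⟨finite_range z, ?_, h3⟩
    rintro _ ⟨i, rfl⟩
    exact h1 i
  · rintro ⟨-, h1, h2⟩
    have h1' : ∀ i, 0 < (z i).im := fun i => h1 _ ⟨i, rfl⟩
    refine ⟨h1', ?_⟩
    refine (trdeg_iff m (3 * m₁ z + m₂ z)).2 ?_
    rw [numbers_eq h1', m₁_eq, m₂_eq h1']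
    exact h2

theorem Lev_eq (n m : ℕ) : LevU n m = {d | d ≤ n ∧ (Fails (n - d) (m + d)).Nonempty} := by
  ext d
  rw [mem_ofPred_eq, Fails_eq]
  rfl

theorem dim_eq (n m : ℕ) : dimH (Fails n m) = (2 * level n m : ℕ) := by
  rw [Fails_eq, level, ← Lev_eq]
  exact dimU n m

theorem lower {n m d : ℕ} (hd : d ≤ n) (h : (Fails (n - d) (m + d)).Nonempty) :
    ((2 * d : ℕ) : ENNReal) ≤ dimH (Fails n m) := by
  rw [Fails_eq]
  apply lowerU
  rw [Lev_eq]
  exact ⟨hd, h⟩

theorem mono {n m m' : ℕ} (h : m ≤ m') {z : Fin n → ℂ} (hz : z ∈ Fails n m') : z ∈ Fails n m := by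
  refine ⟨hz.1, le_trans (add_le_add le_rfl ?_) hz.2⟩
  exact_mod_cast h

theorem bdd {n : ℕ} {P : ℕ → Prop} : BddAbove {d | d ≤ n ∧ P d} := ⟨n, fun _ h => h.1⟩

theorem level_le (n m : ℕ) : level n m ≤ (3 * n - m - 1) / 4 := by
  rcases Set.eq_empty_or_nonempty {d | d ≤ n ∧ (Fails (n - d) (m + d)).Nonempty} with h | h
  · rw [level, h, csSup_empty]
    exact Nat.zero_le _
  · have h1 := Nat.sSup_mem h bdd
    rw [← Lev_eq] at h1
    have h2 := LevU_le h1
    rw [Lev_eq] at h2
    exact h2

theorem countable_iff {n m : ℕ} (hn : 1 ≤ n) : (Fails n m).Countable ↔ Fails (n - 1) (m + 1) = ∅ := by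
  rw [Fails_eq, countableU, Lev_eq]
  constructor
  · intro h
    by_contra hne
    exact h ⟨hn, nonempty_iff_ne_empty.2 hne⟩
  · rintro h ⟨-, h2⟩
    rw [h] at h2
    exact not_nonempty_empty h2

theorem error_iff (m d : ℕ) :
    (∀ n, Fails n (m + d + 1) = ∅) ↔ ∀ n, dimH (Fails n m) ≤ (2 * d : ℕ) := by
  constructor
  · intro h n
    rw [dim_eq]
    have h1 : level n m ≤ d := by
      rcases Set.eq_empty_or_nonempty {e | e ≤ n ∧ (Fails (n - e) (m + e)).Nonempty} with h0 | h0
      · rw [level, h0, csSup_empty]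
        exact Nat.zero_le _
      · obtain ⟨h1, z, hz⟩ := Nat.sSup_mem h0 bdd
        by_contra hcon
        have h2 := mono (m := m + d + 1) (by
          change m + d + 1 ≤ m + level n m
          omega) hz
        rw [h] at h2
        exact h2
    exact_mod_cast Nat.mul_le_mul_left 2 h1
  · intro h s
    by_contra hne
    have h1 := lower (n := s + (d + 1)) (m := m) (d := d + 1) (by omega) (by
      rw [Nat.add_sub_cancel, ← add_assoc]
      exact nonempty_iff_ne_empty.2 hne)
    have h2 := h1.trans (h (s + (d + 1)))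
    have h3 : 2 * (d + 1) ≤ 2 * d := by exact_mod_cast h2
    omega

theorem result :
    -- the dimension
    (∀ n m : ℕ, dimH (Fails n m) = (2 * level n m : ℕ) ∧ level n m ≤ (3 * n - m - 1) / 4) ∧
    -- countability
    (∀ n m : ℕ, 1 ≤ n → ((Fails n m).Countable ↔ Fails (n - 1) (m + 1) = ∅)) ∧
    (∀ n m : ℕ, 3 * n ≤ m + 4 → (Fails n m).Countable) ∧
    -- the conjecture, and the conjecture with bounded error
    (∀ m d : ℕ, (∀ n, Fails n (m + d + 1) = ∅) ↔ ∀ n, dimH (Fails n m) ≤ (2 * d : ℕ)) ∧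
    (∀ m : ℕ, (∀ n, Fails n (m + 1) = ∅) ↔ ∀ n, (Fails n m).Countable) := by
  refine ⟨fun n m => ⟨dim_eq n m, level_le n m⟩, fun n m hn => countable_iff hn, fun n m h => ?_, error_iff,
    fun m => ?_⟩
  · rw [Fails_eq, countableU]
    intro h1
    have := LevU_le h1
    omega
  · constructor
    · intro h n
      rcases Nat.eq_zero_or_pos n with rfl | hn
      · exact Set.countable_univ.mono (subset_univ _)
      · exact (countable_iff hn).2 (h (n - 1))
    · intro h n
      exact (countable_iff (n := n + 1) (m := m) (by omega)).1 (h (n + 1))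

end Pool.Agent.Results.MP_5e64e7_nt.DimensionFormula
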